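import Mathlib

/-!
# Digitwise domination and the key lemma on `κ r mod p ^ L`
-/

open Finset

namespace Pool.Agent.X13.GC

/-- `r` is dominated digit by digit by `D` in base `p`. -/
def Dom (p r D : ℕ) : Prop := ∀ i : ℕ, r % p ^ i ≤ D % p ^ i

lemma Dom.zero (p D : ℕ) : Dom p 0 D := fun i => by simp

lemma Dom.refl (p D : ℕ) : Dom p D D := fun _ => le_rfl

lemma Dom.digit {p j g : ℕ} (hj : j ≤ g) (hg : g < p) : Dom p j g := by
  intro i
  rcases Nat.eq_zero_or_pos i with h | h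
  · subst h; simp [Nat.mod_one]
  · have h1 : g < p ^ i := lt_of_lt_of_le hg (Nat.le_self_pow (by omega) p)
    rw [Nat.mod_eq_of_lt h1, Nat.mod_eq_of_lt (by omega)]
    exact hj

lemma Dom.pow {p h C : ℕ} (hp : 2 ≤ p) (h1 : p ^ h ≤ C) (h2 : C < p ^ (h + 1)) : Dom p (p ^ h) C := by
  intro i
  rcases le_or_gt i h with hi | hi
  · rw [Nat.mod_eq_zero_of_dvd (pow_dvd_pow p hi)]
    exact Nat.zero_le _
  · have h3 : C < p ^ i := lt_of_lt_of_le h2 (Nat.pow_le_pow_right (by omega) hi)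
    rw [Nat.mod_eq_of_lt h3, Nat.mod_eq_of_lt (by omega)]
    exact h1

lemma mod_concat {p n x y i : ℕ} (hp : 2 ≤ p) (hy : y < p ^ n) (hi : n ≤ i) :
    (x * p ^ n + y) % p ^ i = (x % p ^ (i - n)) * p ^ n + y := by
  obtain ⟨d, rfl⟩ := Nat.exists_eq_add_of_le hi
  rw [Nat.add_sub_cancel_left]
  have hpn : 0 < p ^ n := by positivity
  have hpd : 0 < p ^ d := by positivity
  have h1 : x = p ^ d * (x / p ^ d) + x % p ^ d := (Nat.div_add_mod x (p ^ d)).symm
  have h2 : x * p ^ n + y = ((x % p ^ d) * p ^ n + y) + p ^ (n + d) * (x / p ^ d) := by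
    conv_lhs => rw [h1]
    rw [pow_add]
    ring
  rw [h2, Nat.add_mul_mod_self_left, Nat.mod_eq_of_lt]
  have h3 : x % p ^ d + 1 ≤ p ^ d := Nat.mod_lt x hpd
  calc (x % p ^ d) * p ^ n + y < (x % p ^ d) * p ^ n + p ^ n := by omega
    _ = (x % p ^ d + 1) * p ^ n := by ring
    _ ≤ p ^ d * p ^ n := Nat.mul_le_mul_right _ h3
    _ = p ^ (n + d) := by rw [pow_add, mul_comm]

lemma mod_concat_low {p n x y i : ℕ} (hi : i ≤ n) : (x * p ^ n + y) % p ^ i = y % p ^ i := by
  obtain ⟨d, rfl⟩ := Nat.exists_eq_add_of_le hi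
  rw [pow_add, show x * (p ^ i * p ^ d) + y = y + p ^ i * (x * p ^ d) by ring,
    Nat.add_mul_mod_self_left]

lemma Dom.concat {p n r1 D1 r0 D0 : ℕ} (hp : 2 ≤ p) (h1 : Dom p r1 D1) (h0 : Dom p r0 D0)
    (hD : D0 < p ^ n) : Dom p (r1 * p ^ n + r0) (D1 * p ^ n + D0) := by
  have hr : r0 < p ^ n := by
    by_contra hc
    push Not at hc
    -- top digits of `r0` would exceed those of `D0`
    obtain ⟨t, ht⟩ : ∃ t, r0 < p ^ t := ⟨r0, Nat.lt_pow_self (by omega)⟩
    have hnt : n ≤ t := by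
      by_contra hh
      push Not at hh
      have := Nat.pow_le_pow_right (show 0 < p by omega) hh.le
      omega
    have := h0 t
    rw [Nat.mod_eq_of_lt ht, Nat.mod_eq_of_lt
      (lt_of_lt_of_le hD (Nat.pow_le_pow_right (by omega) hnt))] at this
    omega
  intro i
  rcases le_or_gt i n with hi | hi
  · rw [mod_concat_low hi, mod_concat_low hi]
    exact h0 i
  · rw [mod_concat hp hr hi.le, mod_concat hp hD hi.le]
    have h3 : r0 ≤ D0 := by
      have := h0 n
      rwa [Nat.mod_eq_of_lt hr, Nat.mod_eq_of_lt hD] at this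
    exact Nat.add_le_add (Nat.mul_le_mul_right _ (h1 _)) h3

/-- **Key lemma, case `a ≥ 1`.** -/
theorem key_pos {p : ℕ} (hp : p.Prime) {a l D κ : ℕ} (ha : 1 ≤ a) (hl : 1 ≤ l)
    (hD : D < p ^ (l + a)) (hDtop : D / p ^ (l + a - 1) + 2 ≤ p) (hpD : ¬ p ∣ D)
    (hκ : κ * (1 + p ^ a * D) % p ^ (l + a) = 1) :
    ∃ r, Dom p r D ∧ D < (κ * r) % p ^ (l + a) := by
  have hp2 := hp.two_le
  by_contra hcon
  push Not at hcon
  have hcon' : ∀ r, Dom p r D → (κ * r) % p ^ (l + a) ≤ D := hcon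
  set q := p ^ a with hq
  have hq0 : 0 < q := by positivity
  have hqp : p ≤ q := by
    rw [hq]; exact Nat.le_self_pow (by omega) p
  have hpl0 : 0 < p ^ l := by positivity
  have hpla : p ^ (l + a) = p ^ l * q := by rw [hq, pow_add]
  have hpl1 : p ^ l = p * p ^ (l - 1) := by
    rw [← pow_succ']; congr 1; omega
  have hpl10 : 0 < p ^ (l - 1) := by positivity
  -- decomposition of D
  obtain ⟨D1, D0, hDe, hD0⟩ : ∃ D1 D0, D = D1 * q + D0 ∧ D0 < q :=
    ⟨D / q, D % q, by rw [mul_comm]; exact (Nat.div_add_mod D q).symm, Nat.mod_lt _ hq0⟩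
  have hD1 : D1 < p ^ l := by
    by_contra hc
    push Not at hc
    have := Nat.mul_le_mul_right q hc
    rw [hpla] at hD
    omega
  obtain ⟨g, C, hDg, hC⟩ : ∃ g C, D1 = g * p ^ (l - 1) + C ∧ C < p ^ (l - 1) :=
    ⟨D1 / p ^ (l - 1), D1 % p ^ (l - 1), by rw [mul_comm]; exact (Nat.div_add_mod D1 _).symm,
      Nat.mod_lt _ hpl10⟩
  have hg : g + 2 ≤ p := by
    have h1 : g ≤ D / p ^ (l + a - 1) := by
      rw [Nat.le_div_iff_mul_le (by positivity)]
      have : p ^ (l + a - 1) = p ^ (l - 1) * q := by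
        rw [hq, ← pow_add]; congr 1; omega
      rw [this, hDe, hDg, ← mul_assoc]
      have : g * p ^ (l - 1) * q ≤ (g * p ^ (l - 1) + C) * q := Nat.mul_le_mul_right _ (by omega)
      omega
    omega
  have hD01 : 1 ≤ D0 := by
    by_contra hc
    have h0 : D0 = 0 := by omega
    apply hpD
    rw [hDe, h0, add_zero]
    exact Dvd.dvd.mul_left (dvd_pow_self p (by omega)) _
  have hD0p : ¬ p ∣ D0 := by
    intro h
    apply hpD
    rw [hDe]
    exact dvd_add (Dvd.dvd.mul_left (dvd_pow_self p (by omega)) _) h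
  have hdom1 : Dom p 1 D0 := by
    intro i
    rcases Nat.eq_zero_or_pos i with h | h
    · subst h; simp [Nat.mod_one]
    · have h1 : 1 < p ^ i := Nat.one_lt_pow (by omega) (by omega)
      rw [Nat.mod_eq_of_lt h1]
      rw [Nat.one_le_iff_ne_zero]
      intro h2
      exact hD0p ((dvd_pow_self p (by omega)).trans (Nat.dvd_of_mod_eq_zero h2))
  -- κ mod p^(l+a) = 1 + q y
  have hp1 : 1 < p ^ (l + a) := Nat.one_lt_pow (by omega) (by omega)
  have hκZ : (κ : ℤ) * (1 + q * D) ≡ 1 [ZMOD (p : ℤ) ^ (l + a)] := by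
    have : (κ * (1 + q * D)) ≡ 1 [MOD p ^ (l + a)] := by
      unfold Nat.ModEq
      rw [hκ, Nat.mod_eq_of_lt hp1]
    have := (Int.natCast_modEq_iff).2 this
    push_cast at this
    exact this
  -- y
  obtain ⟨y, hy1, hy2, hyp⟩ : ∃ y : ℕ, y < p ^ l ∧
      (κ : ℤ) ≡ 1 + q * y [ZMOD (p : ℤ) ^ (l + a)] ∧ ¬ p ∣ y := by
    have hpos : (0 : ℤ) < (p : ℤ) ^ l := by positivity
    refine ⟨((-(κ * D : ℤ)) % (p : ℤ) ^ l).toNat, ?_, ?_, ?_⟩
    · have h1 := Int.emod_nonneg (-(κ * D : ℤ)) hpos.ne'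
      have h2 := Int.emod_lt_of_pos (-(κ * D : ℤ)) hpos
      zify
      rw [Int.toNat_of_nonneg h1]
      exact h2
    · have h1 := Int.emod_nonneg (-(κ * D : ℤ)) hpos.ne'
      rw [Int.toNat_of_nonneg h1]
      have h3 : (-(κ * D : ℤ)) % (p : ℤ) ^ l ≡ -(κ * D : ℤ) [ZMOD (p : ℤ) ^ l] :=
        Int.mod_modEq _ _
      have h4 : (q : ℤ) * ((-(κ * D : ℤ)) % (p : ℤ) ^ l) ≡ q * (-(κ * D : ℤ))
          [ZMOD (p : ℤ) ^ (l + a)] := by
        have := h3.mul_left' (c := (q : ℤ))
        rw [pow_add, mul_comm ((p : ℤ) ^ l)]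
        have e : (q : ℤ) = (p : ℤ) ^ a := by rw [hq]; push_cast; rfl
        rw [← e]
        exact this
      have h5 : (κ : ℤ) = κ * (1 + q * D) + q * (-(κ * D : ℤ)) := by ring
      calc (κ : ℤ) = κ * (1 + q * D) + q * (-(κ * D : ℤ)) := h5
        _ ≡ 1 + q * ((-(κ * D : ℤ)) % (p : ℤ) ^ l) [ZMOD (p : ℤ) ^ (l + a)] :=
          hκZ.add h4.symm
    · intro hd
      have h1 := Int.emod_nonneg (-(κ * D : ℤ)) hpos.ne'
      have hd' : (p : ℤ) ∣ (-(κ * D : ℤ)) % (p : ℤ) ^ l := by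
        have := Int.natCast_dvd_natCast.2 hd
        rwa [Int.toNat_of_nonneg h1] at this
      have h3 : (p : ℤ) ∣ (p : ℤ) ^ l := dvd_pow_self _ (by omega)
      have h4 : (p : ℤ) ∣ -(κ * D : ℤ) := by
        rw [← Int.emod_add_mul_ediv (-(κ * D : ℤ)) ((p : ℤ) ^ l)]
        exact dvd_add hd' (Dvd.dvd.mul_right h3 _)
      rw [dvd_neg] at h4
      have h5 : p ∣ κ * D := by exact_mod_cast h4
      rcases (hp.dvd_mul).1 h5 with h6 | h6
      · have h7 : p ∣ κ * (1 + q * D) := Dvd.dvd.mul_right h6 _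
        have h8 : p ∣ (κ * (1 + q * D)) % p ^ (l + a) := by
          rw [Nat.dvd_mod_iff (dvd_pow_self p (by omega))]
          exact h7
        rw [hκ] at h8
        have := Nat.le_of_dvd one_pos h8
        omega
      · exact hpD h6
  have hy0 : 1 ≤ y := by
    rcases Nat.eq_zero_or_pos y with h | h
    · rw [h] at hyp; exact absurd (dvd_zero p) hyp
    · exact h
  -- the value for `r = u q + δ`
  have hval : ∀ u δ : ℕ, δ < q → (κ * (u * q + δ)) % p ^ (l + a) =
      ((u + y * (q * u + δ)) % p ^ l) * q + δ := by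
    intro u δ hδ
    have h1 : (κ : ℤ) * (u * q + δ) ≡ (1 + q * y) * (u * q + δ) [ZMOD (p : ℤ) ^ (l + a)] :=
      hy2.mul_right _
    have h2 : ((κ * (u * q + δ) : ℕ) : ℤ) ≡ (((u + y * (q * u + δ)) * q + δ : ℕ) : ℤ)
        [ZMOD ((p ^ (l + a) : ℕ) : ℤ)] := by
      push_cast
      calc (κ : ℤ) * (u * q + δ) ≡ (1 + q * y) * (u * q + δ) [ZMOD (p : ℤ) ^ (l + a)] := h1
        _ = (u + y * (q * u + δ)) * q + δ := by ring
    rw [Int.natCast_modEq_iff] at h2
    unfold Nat.ModEq at h2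
    rw [h2, hq, mod_concat hp2 (by rw [← hq]; exact hδ) (by omega), Nat.add_sub_cancel]
  have hX : ∀ u δ : ℕ, Dom p u D1 → Dom p δ D0 →
      (u + y * (q * u + δ)) % p ^ l ≤ D1 := by
    intro u δ hu hδ
    have hδq : δ < q := by
      have := hδ a
      rw [← hq] at this
      rw [Nat.mod_eq_of_lt hD0] at this
      by_contra hc
      push Not at hc
      obtain ⟨t, ht⟩ : ∃ t, δ < p ^ t := ⟨δ, Nat.lt_pow_self (by omega)⟩
      have hnt : a ≤ t := by
        by_contra hh
        push Not at hh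
        have := Nat.pow_le_pow_right (show 0 < p by omega) hh.le
        omega
      have := hδ t
      rw [Nat.mod_eq_of_lt ht, Nat.mod_eq_of_lt
        (lt_of_lt_of_le hD0 (Nat.pow_le_pow_right (by omega) hnt))] at this
      omega
    have h1 := hcon' (u * q + δ) (by rw [hDe, hq]; exact Dom.concat hp2 hu hδ (by rw [← hq]; exact hD0))
    rw [hval u δ hδq, hDe] at h1
    by_contra hc
    push Not at hc
    have h2 : (D1 + 1) * q ≤ ((u + y * (q * u + δ)) % p ^ l) * q := Nat.mul_le_mul_right _ hc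
    rw [add_mul] at h2
    omega
  -- remove the top digit
  have hX' : ∀ u δ : ℕ, Dom p u C → Dom p δ D0 → (u + y * (q * u + δ)) % p ^ l ≤ C := by
    intro u δ hu hδ
    have hshift : ∀ j : ℕ, j ≤ g → ((u + y * (q * u + δ)) % p ^ l + j * p ^ (l - 1)) % p ^ l ≤ D1 := by
      intro j hj
      have hdom : Dom p (j * p ^ (l - 1) + u) D1 := by
        rw [hDg]
        exact Dom.concat hp2 (Dom.digit hj (by omega)) hu hC
      have h1 := hX _ δ hdom hδ
      have h2 : (j * p ^ (l - 1) + u + y * (q * (j * p ^ (l - 1) + u) + δ)) =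
          (u + y * (q * u + δ) + j * p ^ (l - 1)) + p ^ l * (y * j * p ^ (a - 1)) := by
        have : q = p * p ^ (a - 1) := by
          rw [hq, ← pow_succ']; congr 1; omega
        rw [this, hpl1]
        ring
      rw [h2, Nat.add_mul_mod_self_left] at h1
      rwa [Nat.mod_add_mod]
    set X := (u + y * (q * u + δ)) % p ^ l with hXdef
    have hXlt : X < p ^ l := Nat.mod_lt _ hpl0
    have h0 := hshift 0 (Nat.zero_le _)
    rw [zero_mul, add_zero, Nat.mod_eq_of_lt hXlt] at h0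
    obtain ⟨xt, xl, hx, hxl⟩ : ∃ xt xl, X = xt * p ^ (l - 1) + xl ∧ xl < p ^ (l - 1) :=
      ⟨X / p ^ (l - 1), X % p ^ (l - 1), by rw [mul_comm]; exact (Nat.div_add_mod X _).symm,
        Nat.mod_lt _ hpl10⟩
    have hxt : xt ≤ g := by
      by_contra hc
      push Not at hc
      have h3 : (g + 1) * p ^ (l - 1) ≤ xt * p ^ (l - 1) := Nat.mul_le_mul_right _ hc
      rw [add_mul, one_mul] at h3
      omega
    have hxt0 : xt = 0 := by
      by_contra hne
      have h1 := hshift (g + 1 - xt) (by omega)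
      have h2 : X + (g + 1 - xt) * p ^ (l - 1) = (g + 1) * p ^ (l - 1) + xl := by
        have : xt * p ^ (l - 1) + (g + 1 - xt) * p ^ (l - 1) = (g + 1) * p ^ (l - 1) := by
          rw [← add_mul]; congr 1; omega
        omega
      rw [h2, Nat.mod_eq_of_lt] at h1
      · rw [add_mul, one_mul] at h1
        omega
      · calc (g + 1) * p ^ (l - 1) + xl < (g + 1) * p ^ (l - 1) + p ^ (l - 1) := by omega
          _ = (g + 2) * p ^ (l - 1) := by ring
          _ ≤ p * p ^ (l - 1) := Nat.mul_le_mul_right _ hg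
          _ = p ^ l := hpl1.symm
    have h1 := hshift g le_rfl
    rw [hx, hxt0, zero_mul, zero_add, Nat.mod_eq_of_lt] at h1
    · rw [hx, hxt0, zero_mul, zero_add]
      omega
    · calc xl + g * p ^ (l - 1) < p ^ (l - 1) + g * p ^ (l - 1) := by omega
        _ = (g + 1) * p ^ (l - 1) := by ring
        _ ≤ p * p ^ (l - 1) := Nat.mul_le_mul_right _ (by omega)
        _ = p ^ l := hpl1.symm
  -- split C at position l - a
  set l' := l - a with hl'
  obtain ⟨Ch, C', hCe, hC'⟩ : ∃ Ch C', C = Ch * p ^ l' + C' ∧ C' < p ^ l' :=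
    ⟨C / p ^ l', C % p ^ l', by rw [mul_comm]; exact (Nat.div_add_mod C _).symm,
      Nat.mod_lt _ (by positivity)⟩
  have h2l : 2 * p ^ (l - 1) ≤ p ^ l := by rw [hpl1]; exact Nat.mul_le_mul_right _ hp2
  have hqCh : p ^ l ∣ q * (Ch * p ^ l') := by
    have : p ^ l ∣ q * p ^ l' := by
      rw [hq, ← pow_add]
      exact pow_dvd_pow p (by omega)
    calc p ^ l ∣ q * p ^ l' := this
      _ ∣ q * (Ch * p ^ l') := ⟨Ch, by ring⟩
  -- y ≤ C'
  have hyC : y ≤ C := by
    have h1 := hX' 0 1 (Dom.zero p C) hdom1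
    simp only [zero_add, mul_zero, mul_one] at h1
    rwa [Nat.mod_eq_of_lt hy1] at h1
  have hyC' : y ≤ C' := by
    have hdomu : Dom p (Ch * p ^ l') C := by
      have := Dom.concat (r0 := 0) hp2 (Dom.refl p Ch) (Dom.zero p C') hC'
      rw [add_zero, ← hCe] at this
      exact this
    have h1 := hX' (Ch * p ^ l') 1 hdomu hdom1
    obtain ⟨c, hc⟩ := hqCh
    have h2 : Ch * p ^ l' + y * (q * (Ch * p ^ l') + 1) = (Ch * p ^ l' + y) + p ^ l * (y * c) := by
      rw [hc]; ring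
    rw [h2, Nat.add_mul_mod_self_left, Nat.mod_eq_of_lt (by omega)] at h1
    omega
  -- hence `a < l`
  have hal : a < l := by
    by_contra hc
    have : l' = 0 := by omega
    rw [this, pow_zero] at hC'
    omega
  -- top digit of C'
  obtain ⟨h, hh1, hh2⟩ : ∃ h, p ^ h ≤ C' ∧ C' < p ^ (h + 1) :=
    ⟨Nat.log p C', Nat.pow_log_le_self p (by omega), Nat.lt_pow_succ_log_self hp.one_lt C'⟩
  have hhl : h + a < l := by
    have : p ^ h < p ^ l' := lt_of_le_of_lt hh1 hC'
    have := (Nat.pow_lt_pow_iff_right hp.one_lt).1 this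
    omega
  set Y := (p ^ (h + a) * y) % p ^ l with hY
  have hYlt : Y < p ^ l := Nat.mod_lt _ hpl0
  have hYdvd : p ^ (h + a) ∣ Y := by
    rw [hY, Nat.dvd_mod_iff (pow_dvd_pow p (by omega))]
    exact dvd_mul_right _ _
  have hY0 : Y ≠ 0 := by
    intro h0
    have h1 : p ^ l ∣ p ^ (h + a) * y := Nat.dvd_of_mod_eq_zero h0
    have h2 : p ^ (h + a) * p ∣ p ^ (h + a) * y := by
      rw [← pow_succ]
      exact (pow_dvd_pow p (by omega)).trans h1
    exact hyp (Nat.dvd_of_mul_dvd_mul_left (by positivity) h2)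
  have hdomh : Dom p (p ^ h) C' := Dom.pow hp2 hh1 hh2
  have hqh : q * p ^ h = p ^ (h + a) := by rw [hq, ← pow_add, add_comm]
  -- first: `p ^ h + Y ≤ C`
  have e1 : p ^ h + Y ≤ C := by
    have hdomu : Dom p (p ^ h) C := by
      have := Dom.concat (r1 := 0) hp2 (Dom.zero p Ch) hdomh hC'
      rw [zero_mul, zero_add, ← hCe] at this
      exact this
    have h1 := hX' (p ^ h) 0 hdomu (Dom.zero p D0)
    rw [add_zero, hqh, mul_comm y, Nat.add_mod, ← hY] at h1
    have h3 : p ^ h < p ^ l := Nat.pow_lt_pow_right hp.one_lt (by omega)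
    rw [Nat.mod_eq_of_lt h3] at h1
    have h4 : p ^ h + Y < p ^ l := by
      -- both `Y` and `p ^ l` are multiples of `p ^ (h + a) > p ^ h`
      obtain ⟨c, hc⟩ := hYdvd
      obtain ⟨d, hd⟩ : p ^ (h + a) ∣ p ^ l := pow_dvd_pow p (by omega)
      have h5 : 0 < p ^ (h + a) := by positivity
      have h6 : c < d := by
        rw [hc, hd] at hYlt
        exact Nat.lt_of_mul_lt_mul_left hYlt
      have h7 : p ^ (h + a) * (c + 1) ≤ p ^ (h + a) * d := Nat.mul_le_mul_left _ h6
      have h8 : p ^ h < p ^ (h + a) := Nat.pow_lt_pow_right hp.one_lt (by omega)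
      rw [mul_add, mul_one] at h7
      omega
    rwa [Nat.mod_eq_of_lt h4] at h1
  have e2 : Ch * p ^ l' + p ^ h + Y ≤ C := by
    have hdomu : Dom p (Ch * p ^ l' + p ^ h) C := by
      rw [hCe]
      exact Dom.concat hp2 (Dom.refl p Ch) hdomh hC'
    have h1 := hX' (Ch * p ^ l' + p ^ h) 0 hdomu (Dom.zero p D0)
    obtain ⟨c, hc⟩ := hqCh
    have h2 : Ch * p ^ l' + p ^ h + y * (q * (Ch * p ^ l' + p ^ h) + 0) =
        (Ch * p ^ l' + p ^ h + p ^ (h + a) * y) + p ^ l * (y * c) := by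
      rw [add_zero, mul_add q, hc, hqh]; ring
    rw [h2, Nat.add_mul_mod_self_left, Nat.add_mod, ← hY, Nat.mod_eq_of_lt
      (show Ch * p ^ l' + p ^ h < p ^ l by omega), Nat.mod_eq_of_lt (by omega)] at h1
    exact h1
  have e3 : Y < p ^ (h + 1) := by omega
  have e4 : p ^ (h + 1) ≤ Y := by
    calc p ^ (h + 1) ≤ p ^ (h + a) := Nat.pow_le_pow_right (by omega) (by omega)
      _ ≤ Y := Nat.le_of_dvd (Nat.pos_of_ne_zero hY0) hYdvd
  omega

/-- **Key lemma, case `a = 0`.** -/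
theorem key_zero {p : ℕ} (hp : p.Prime) {l D κ : ℕ} (hl : 1 ≤ l)
    (hD : D < p ^ l) (hDtop : D / p ^ (l - 1) + 2 ≤ p) (hpD : ¬ p ∣ D)
    (hκ : κ * (1 + D) % p ^ l = 1) :
    ∃ r, Dom p r D ∧ D < (κ * r) % p ^ l := by
  have hp2 := hp.two_le
  by_contra hcon
  push Not at hcon
  have hpl0 : 0 < p ^ l := by positivity
  have hpl1 : p ^ l = p * p ^ (l - 1) := by
    rw [← pow_succ']; congr 1; omega
  have hpl10 : 0 < p ^ (l - 1) := by positivity
  have h2l : 2 * p ^ (l - 1) ≤ p ^ l := by rw [hpl1]; exact Nat.mul_le_mul_right _ hp2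
  obtain ⟨g, C, hDg, hC⟩ : ∃ g C, D = g * p ^ (l - 1) + C ∧ C < p ^ (l - 1) :=
    ⟨D / p ^ (l - 1), D % p ^ (l - 1), by rw [mul_comm]; exact (Nat.div_add_mod D _).symm,
      Nat.mod_lt _ hpl10⟩
  have hg : g + 2 ≤ p := by
    have h1 : g ≤ D / p ^ (l - 1) := by
      rw [Nat.le_div_iff_mul_le hpl10]
      omega
    omega
  have hD1 : 1 ≤ D := by
    rcases Nat.eq_zero_or_pos D with h | h
    · rw [h] at hpD; exact absurd (dvd_zero p) hpD
    · exact h
  have hdom1 : Dom p 1 D := by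
    intro i
    rcases Nat.eq_zero_or_pos i with h | h
    · subst h; simp [Nat.mod_one]
    · have h1 : 1 < p ^ i := Nat.one_lt_pow (by omega) (by omega)
      rw [Nat.mod_eq_of_lt h1]
      rw [Nat.one_le_iff_ne_zero]
      intro h2
      exact hpD ((dvd_pow_self p (by omega)).trans (Nat.dvd_of_mod_eq_zero h2))
  have hp1 : 1 < p ^ l := Nat.one_lt_pow (by omega) (by omega)
  set y := κ % p ^ l with hy
  have hylt : y < p ^ l := Nat.mod_lt _ hpl0
  have hyD : y ≤ D := by
    have := hcon 1 hdom1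
    rwa [mul_one] at this
  have hyκ : ∀ x, (κ * x) % p ^ l = (y * x) % p ^ l := fun x => by
    rw [hy, Nat.mod_mul_mod]
  have hy1 : y * (1 + D) % p ^ l = 1 := by rw [← hyκ]; exact hκ
  have hyne0 : y ≠ 0 := by
    intro h
    rw [h, zero_mul, Nat.zero_mod] at hy1
    omega
  have hyne1 : y ≠ 1 := by
    intro h
    rw [h, one_mul] at hy1
    have h3 : 1 + D < p ^ l := by
      have : D < (g + 1) * p ^ (l - 1) := by rw [hDg]; ring_nf; omega
      have h4 : (g + 1) * p ^ (l - 1) + p ^ (l - 1) ≤ p ^ l := by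
        calc (g + 1) * p ^ (l - 1) + p ^ (l - 1) = (g + 2) * p ^ (l - 1) := by ring
          _ ≤ p * p ^ (l - 1) := Nat.mul_le_mul_right _ hg
          _ = p ^ l := hpl1.symm
      omega
    rw [Nat.mod_eq_of_lt h3] at hy1
    omega
  -- `κ D ≡ 1 - y`
  have hyDmod : (y * D) % p ^ l = p ^ l + 1 - y := by
    have h1 : (y * D + y) % p ^ l = 1 := by
      rw [show y * D + y = y * (1 + D) by ring]; exact hy1
    have h2 : (y * D) % p ^ l < p ^ l := Nat.mod_lt _ hpl0
    have hy2 : 2 ≤ y := by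
      clear_value y
      omega
    rw [Nat.add_mod, Nat.mod_eq_of_lt hylt] at h1
    generalize (y * D) % p ^ l = z at h1 h2
    clear_value y
    rcases lt_or_ge (z + y) (p ^ l) with h3 | h3
    · rw [Nat.mod_eq_of_lt h3] at h1
      omega
    · rw [Nat.mod_eq_sub_mod h3, Nat.mod_eq_of_lt (by omega)] at h1
      omega
  have hyge : p ^ l + 1 - y ≤ D := by
    have := hcon D (Dom.refl p D)
    rwa [hyκ, hyDmod] at this
  have hg1 : 1 ≤ g := by
    by_contra hc
    have hg0 : g = 0 := by omega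
    rw [hg0, zero_mul, zero_add] at hDg
    omega
  -- multiplication by `y` preserves `{0, …, g}` modulo `p`
  have hclosed : ∀ j, j ≤ g → (y * j) % p ≤ g := by
    intro j hj
    have hdom : Dom p (j * p ^ (l - 1)) D := by
      have := Dom.concat (r0 := 0) hp2 (Dom.digit hj (by omega)) (Dom.zero p C) hC
      rw [add_zero, ← hDg] at this
      exact this
    have h1 := hcon _ hdom
    rw [hyκ, ← mul_assoc, hpl1, Nat.mul_mod_mul_right] at h1
    by_contra hc
    push Not at hc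
    have h2 : (g + 1) * p ^ (l - 1) ≤ (y * j) % p * p ^ (l - 1) := Nat.mul_le_mul_right _ hc
    rw [add_mul, one_mul] at h2
    omega
  have hpy : ¬ p ∣ y := by
    intro h
    have h1 : p ∣ y * (1 + D) % p ^ l := by
      rw [Nat.dvd_mod_iff (dvd_pow_self p (by omega))]
      exact Dvd.dvd.mul_right h _
    rw [hy1] at h1
    have := Nat.le_of_dvd one_pos h1
    omega
  set η := y % p with hη
  have hηle : η ≤ g := by
    have := hclosed 1 hg1
    rwa [mul_one] at this
  have hη0 : η ≠ 0 := fun h => hpy (Nat.dvd_of_mod_eq_zero h)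
  have hη1 : η ≠ 1 := by
    intro h
    apply hpD
    have h1 : (y * (1 + D)) % p = 1 % p := by
      have h2 : (y * (1 + D)) % p ^ l % p = (y * (1 + D)) % p :=
        Nat.mod_mod_of_dvd _ (dvd_pow_self p (by omega))
      rw [← h2, hy1]
    rw [← Nat.mod_mul_mod, ← hη, h, one_mul] at h1
    have h3 : (1 + D) ≡ 1 [MOD p] := h1
    have h4 := (Nat.modEq_iff_dvd' (show 1 ≤ 1 + D by omega)).1 h3.symm
    rwa [Nat.add_sub_cancel_left] at h4
  have hclosed' : ∀ j, j ≤ g → (η * j) % p ≤ g := by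
    intro j hj
    have := hclosed j hj
    rwa [hη, Nat.mod_mul_mod]
  -- `p - η ≤ g`
  have hpη : p - η ≤ g := by
    set j := g / η + 1 with hj
    have h1 : g < j * η := by
      rw [hj, add_mul, one_mul]
      have := Nat.div_add_mod g η
      have := Nat.mod_lt g (Nat.pos_of_ne_zero hη0)
      rw [mul_comm] at *
      nlinarith
    have h2 : j * η ≤ g + η := by
      rw [hj, add_mul, one_mul]
      have := Nat.div_mul_le_self g η
      omega
    have h3 : j ≤ g := by
      have h4 : g / η ≤ g / 2 := Nat.div_le_div_left (by omega) (by omega)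
      omega
    have h5 := hclosed' j h3
    by_contra hc
    push Not at hc
    rw [mul_comm, Nat.mod_eq_of_lt (by omega)] at h5
    omega
  -- injectivity hence surjectivity
  let f : Fin (g + 1) → Fin (g + 1) := fun j =>
    ⟨(η * j) % p, Nat.lt_succ_of_le (hclosed' j (Nat.le_of_lt_succ j.2))⟩
  have hinj : Function.Injective f := by
    intro i j hij
    have h1 : (η * i) % p = (η * j) % p := congrArg Fin.val hij
    have hc : Nat.Coprime p η := by
      rw [Nat.Prime.coprime_iff_not_dvd hp]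
      intro h
      have := Nat.le_of_dvd (by omega) h
      have : η < p := Nat.mod_lt _ (by omega)
      omega
    have h2 : (i : ℕ) ≡ j [MOD p] := Nat.ModEq.cancel_left_of_coprime hc h1
    unfold Nat.ModEq at h2
    rw [Nat.mod_eq_of_lt (by omega), Nat.mod_eq_of_lt (by omega)] at h2
    exact Fin.ext h2
  have hsurj := Finite.surjective_of_injective hinj
  obtain ⟨x, hx⟩ := hsurj ⟨p - η, by omega⟩
  have hx' : (η * x) % p = p - η := congrArg Fin.val hx
  have hηp : η < p := Nat.mod_lt _ (by omega)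
  have h1 : (η * (x + 1)) % p = 0 := by
    rw [mul_add, mul_one, Nat.add_mod, hx', Nat.mod_eq_of_lt hηp]
    have : p - η + η = p := by omega
    rw [this, Nat.mod_self]
  have h2 : p ∣ η * (x + 1) := Nat.dvd_of_mod_eq_zero h1
  rcases (hp.dvd_mul).1 h2 with h3 | h3
  · have := Nat.le_of_dvd (by omega) h3
    omega
  · have := Nat.le_of_dvd (by omega) h3
    have := x.2
    omega

end Pool.Agent.X13.GC
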