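import Pool.Agent.X13.GC.Dom

/-!
# Primes dividing all `binom(jk, k)`
-/

open Finset

namespace Pool.Agent.X13.GC

/-- No carry when adding `m` and `n` in base `p`. -/
def NC (p m n : ℕ) : Prop := ∀ i : ℕ, m % p ^ i + n % p ^ i < p ^ i

lemma not_dvd_choose {p : ℕ} (hp : p.Prime) {m n : ℕ} (h : NC p m n) :
    ¬ p ∣ (n + m).choose m := by
  intro hd
  have h0 : (n + m).choose m ≠ 0 := (Nat.choose_pos (Nat.le_add_left _ _)).ne'
  have h1 := Nat.factorization_choose' (k := m) (n := n) hp (Nat.lt_succ_self (Nat.log p (n + m)))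
  have h2 : (Finset.filter (fun i => p ^ i ≤ m % p ^ i + n % p ^ i)
      (Finset.Ico 1 (Nat.log p (n + m) + 1))) = ∅ := by
    rw [Finset.filter_eq_empty_iff]
    intro i _
    have := h i
    omega
  rw [Nat.succ_eq_add_one, h2, Finset.card_empty] at h1
  have h3 := (hp.dvd_iff_one_le_factorization h0).1 hd
  omega

lemma dvd_choose {p : ℕ} (hp : p.Prime) {m n i : ℕ} (h : p ^ i ≤ m % p ^ i + n % p ^ i) :
    p ∣ (n + m).choose m := by
  have h0 : (n + m).choose m ≠ 0 := (Nat.choose_pos (Nat.le_add_left _ _)).ne'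
  rw [hp.dvd_iff_one_le_factorization h0,
    Nat.factorization_choose' (k := m) (n := n) hp
      (show Nat.log p (n + m) < Nat.log p (n + m) + 1 + i by omega)]
  rw [Nat.one_le_iff_ne_zero, Finset.card_ne_zero]
  have hi : 1 ≤ i := by
    rcases Nat.eq_zero_or_pos i with h | h'
    · subst h
      simp [Nat.mod_one] at h
    · exact h'
  exact ⟨i, Finset.mem_filter.2 ⟨Finset.mem_Ico.2 ⟨hi, by omega⟩, h⟩⟩

lemma nc_of_le {p L M D N : ℕ} (hp : 2 ≤ p) (hMD : M + D + 1 = p ^ L)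
    (h : ∀ i, i ≤ L → N % p ^ i ≤ D % p ^ i) : NC p M N := by
  intro i
  have hpi : 0 < p ^ i := by positivity
  rcases le_or_gt i L with hi | hi
  · have h1 := h i hi
    have h2 : p ^ i ∣ M + D + 1 := by rw [hMD]; exact pow_dvd_pow p hi
    have h3 : M % p ^ i < p ^ i := Nat.mod_lt _ hpi
    have h4 : D % p ^ i < p ^ i := Nat.mod_lt _ hpi
    have h5 : p ^ i ∣ M % p ^ i + D % p ^ i + 1 := by
      have e : (M % p ^ i + D % p ^ i + 1) ≡ (M + D + 1) [MOD p ^ i] :=
        ((Nat.mod_modEq _ _).add (Nat.mod_modEq _ _)).add_right 1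
      exact (e.dvd_iff dvd_rfl).2 h2
    obtain ⟨c, hc⟩ := h5
    have hc2 : c < 2 := by
      by_contra hcc
      push Not at hcc
      have : p ^ i * 2 ≤ p ^ i * c := Nat.mul_le_mul_left _ hcc
      omega
    have hc0 : c ≠ 0 := by
      intro h0
      rw [h0, mul_zero] at hc
      exact Nat.succ_ne_zero _ hc
    have hc1 : c = 1 := by omega
    rw [hc1, mul_one] at hc
    generalize M % p ^ i = x at *
    generalize D % p ^ i = y at *
    generalize N % p ^ i = z at *
    generalize p ^ i = w at *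
    omega
  · have hM : M < p ^ L := by omega
    have hpL : 0 < p ^ L := by positivity
    have hpLi : p ^ L < p ^ i := Nat.pow_lt_pow_right (by omega) hi
    rw [Nat.mod_eq_of_lt (show M < p ^ i by omega)]
    have h1 := h L le_rfl
    rw [Nat.mod_eq_of_lt (show D < p ^ L by omega)] at h1
    set N' := N % p ^ i with hN'
    have h2 : N' < p ^ i := Nat.mod_lt _ hpi
    have h3 : N' % p ^ L = N % p ^ L := by
      rw [hN']
      exact Nat.mod_mod_of_dvd _ (pow_dvd_pow p hi.le)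
    have h4 := Nat.div_add_mod N' (p ^ L)
    obtain ⟨d, hd⟩ := Nat.exists_eq_add_of_lt hi
    have h5 : p ^ i = p ^ L * p ^ (i - L) := by rw [← pow_add]; congr 1; omega
    have h6 : N' / p ^ L < p ^ (i - L) := by
      rw [Nat.div_lt_iff_lt_mul hpL, mul_comm, ← h5]
      exact h2
    have h7 : p ^ L * (N' / p ^ L + 1) ≤ p ^ L * p ^ (i - L) := Nat.mul_le_mul_left _ h6
    rw [← h5, mul_add, mul_one] at h7
    omega

/-- existence of a good multiplier for the high part. -/
lemma exists_s {p : ℕ} (hp : p.Prime) {k M a : ℕ} (hk : k + 1 = p ^ a * (M + 1))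
    (hpM : ¬ p ∣ M + 1) (hq : p ^ a ≤ M) : ∃ s, 1 ≤ s ∧ s ≤ M ∧ NC p M (s * k) := by
  have hp2 := hp.two_le
  have hM1 : 1 ≤ M := le_trans (Nat.one_le_iff_ne_zero.2 (by positivity)) hq
  set L := Nat.log p M + 1 with hL
  have hML : M < p ^ L := Nat.lt_pow_succ_log_self hp.one_lt M
  have hML' : p ^ (L - 1) ≤ M := by
    rw [hL, Nat.add_sub_cancel]
    exact Nat.pow_log_le_self p (by omega)
  have hL1 : 1 ≤ L := by omega
  have hpL : p ^ L = p * p ^ (L - 1) := by rw [← pow_succ']; congr 1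
  have haL : a < L := (Nat.pow_lt_pow_iff_right hp.one_lt).1 (lt_of_le_of_lt hq hML)
  obtain ⟨D, hD⟩ : ∃ D, M + D + 1 = p ^ L := ⟨p ^ L - 1 - M, by omega⟩
  have hDlt : D < p ^ L := by omega
  have hpD : ¬ p ∣ D := by
    intro h
    apply hpM
    have h1 : p ∣ M + D + 1 := by rw [hD]; exact dvd_pow_self p (by omega)
    have h2 : M + D + 1 = (M + 1) + D := by ring
    rw [h2] at h1
    exact (Nat.dvd_add_iff_left h).2 h1
  have hDtop : D / p ^ (L - 1) + 2 ≤ p := by
    have h1 : D < (p - 1) * p ^ (L - 1) := by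
      have : (p - 1) * p ^ (L - 1) + p ^ (L - 1) = p ^ L := by
        rw [hpL]
        obtain ⟨c, hc⟩ : ∃ c, p = c + 1 := ⟨p - 1, by omega⟩
        rw [hc, Nat.add_sub_cancel]
        ring
      omega
    have h2 : D / p ^ (L - 1) < p - 1 := (Nat.div_lt_iff_lt_mul (by positivity)).2 h1
    omega
  -- conclude from a dominated residue
  have finish : ∀ r κ : ℕ, Dom p r D → D < (κ * r) % p ^ L → κ * (1 + p ^ a * D) % p ^ L = 1 →
      ∃ s, 1 ≤ s ∧ s ≤ M ∧ NC p M (s * k) := by
    intro r κ hr hlt hκ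
    have h1 : (κ * r) % p ^ L < p ^ L := Nat.mod_lt _ (by positivity)
    set z := (κ * r) % p ^ L with hz
    refine ⟨p ^ L - z, by omega, by omega, ?_⟩
    apply nc_of_le hp2 hD
    intro i hi
    have key : ((p ^ L - z) * k) % p ^ L = r % p ^ L := by
      have hkZ : (k : ℤ) = p ^ a * (M + 1) - 1 := by
        have : ((k + 1 : ℕ) : ℤ) = ((p ^ a * (M + 1) : ℕ) : ℤ) := by rw [hk]
        push_cast at this
        linarith
      have hMZ : (M : ℤ) + 1 = (p : ℤ) ^ L - D := by
        have : ((M + D + 1 : ℕ) : ℤ) = ((p ^ L : ℕ) : ℤ) := by rw [hD]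
        push_cast at this
        linarith
      have hκZ : (κ : ℤ) * (1 + p ^ a * D) ≡ 1 [ZMOD (p : ℤ) ^ L] := by
        have h3 : (κ * (1 + p ^ a * D)) ≡ 1 [MOD p ^ L] := by
          unfold Nat.ModEq
          rw [hκ, Nat.mod_eq_of_lt (Nat.one_lt_pow (by omega) hp.one_lt)]
        have := (Int.natCast_modEq_iff).2 h3
        push_cast at this
        exact this
      have hzZ : (z : ℤ) ≡ κ * r [ZMOD (p : ℤ) ^ L] := by
        have h3 : z ≡ κ * r [MOD p ^ L] := Nat.mod_modEq _ _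
        have := (Int.natCast_modEq_iff).2 h3
        push_cast at this
        exact this
      have h4 : (((p ^ L - z) * k : ℕ) : ℤ) ≡ ((r : ℕ) : ℤ) [ZMOD ((p ^ L : ℕ) : ℤ)] := by
        rw [Nat.cast_mul, Nat.cast_sub h1.le]
        push_cast
        have hpLZ : (p : ℤ) ^ L ≡ 0 [ZMOD (p : ℤ) ^ L] := by
          rw [Int.modEq_zero_iff_dvd]
        have h5 : (p : ℤ) ^ L - z ≡ 0 - κ * r [ZMOD (p : ℤ) ^ L] := hpLZ.sub hzZ
        have h6 : (k : ℤ) ≡ -(1 + p ^ a * D) [ZMOD (p : ℤ) ^ L] := by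
          rw [hkZ, hMZ]
          have : (p : ℤ) ^ a * ((p : ℤ) ^ L - D) - 1 =
            -(1 + (p : ℤ) ^ a * D) + (p : ℤ) ^ L * (p : ℤ) ^ a := by ring
          rw [this]
          exact Int.modEq_iff_dvd.2 ⟨-(p : ℤ) ^ a, by ring⟩
        calc ((p : ℤ) ^ L - z) * k ≡ (0 - κ * r) * (-(1 + p ^ a * D)) [ZMOD (p : ℤ) ^ L] :=
              h5.mul h6
          _ = (κ * (1 + p ^ a * D)) * r := by ring
          _ ≡ 1 * r [ZMOD (p : ℤ) ^ L] := hκZ.mul_right _
          _ = r := one_mul _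
      exact (Int.natCast_modEq_iff).1 h4
    have h2 : ((p ^ L - z) * k) % p ^ i = r % p ^ i := by
      rw [← Nat.mod_mod_of_dvd _ (pow_dvd_pow p hi), key, Nat.mod_mod_of_dvd _ (pow_dvd_pow p hi)]
    rw [h2]
    exact hr i
  have hp1L : 1 < p ^ L := Nat.one_lt_pow (by omega) hp.one_lt
  rcases Nat.eq_zero_or_pos a with ha | ha
  · -- a = 0
    subst ha
    rw [pow_zero, one_mul] at hk
    have hkM : k = M := by omega
    by_cases hpM' : p ∣ M
    · refine ⟨p ^ (L - 1), Nat.one_le_iff_ne_zero.2 (by positivity), hML', ?_⟩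
      apply nc_of_le hp2 hD
      intro i hi
      have : p ^ i ∣ p ^ (L - 1) * k := by
        rw [hkM]
        calc p ^ i ∣ p ^ L := pow_dvd_pow p hi
          _ = p ^ (L - 1) * p := by rw [hpL]; ring
          _ ∣ p ^ (L - 1) * M := Nat.mul_dvd_mul_left _ hpM'
      rw [Nat.mod_eq_zero_of_dvd this]
      exact Nat.zero_le _
    · have hcop : Nat.Coprime (1 + D) (p ^ L) := by
        apply Nat.Coprime.pow_right
        rw [Nat.coprime_comm, Nat.Prime.coprime_iff_not_dvd hp]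
        intro h
        apply hpM'
        have h1 : p ∣ M + (1 + D) := by
          rw [show M + (1 + D) = p ^ L by omega]
          exact dvd_pow_self p (by omega)
        exact (Nat.dvd_add_iff_left h).2 h1
      obtain ⟨κ, hκ⟩ := Nat.exists_mul_mod_eq_one_of_coprime hcop hp1L
      rw [mul_comm] at hκ
      obtain ⟨r, hr1, hr2⟩ := key_zero hp hL1 hDlt hDtop hpD hκ.2
      refine finish r κ hr1 hr2 ?_
      rw [pow_zero, one_mul]
      exact hκ.2
  · -- a ≥ 1
    obtain ⟨l, hl⟩ : ∃ l, L = l + a := ⟨L - a, by omega⟩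
    have hcop : Nat.Coprime (1 + p ^ a * D) (p ^ L) := by
      apply Nat.Coprime.pow_right
      rw [Nat.coprime_comm, Nat.Prime.coprime_iff_not_dvd hp]
      intro h
      have h1 : p ∣ p ^ a * D := Dvd.dvd.mul_right (dvd_pow_self p (by omega)) _
      have h2 : p ∣ 1 := (Nat.dvd_add_iff_left h1).2 h
      have := Nat.le_of_dvd one_pos h2
      omega
    obtain ⟨κ, hκ⟩ := Nat.exists_mul_mod_eq_one_of_coprime hcop hp1L
    rw [mul_comm] at hκ
    have hκ' := hκ.2
    rw [hl] at hκ' hDlt hDtop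
    obtain ⟨r, hr1, hr2⟩ := key_pos hp ha (by omega) hDlt hDtop hpD hκ'
    rw [← hl] at hr2
    exact finish r κ hr1 hr2 hκ.2

end Pool.Agent.X13.GC
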